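import Pool.Agent.Q278.Seven

set_option autoImplicit false

/-! The supercongruence `S_r(p) ≡ 0 (mod p ^ (2 r + 3))` for all primes `p > 3` and all `r ≥ 1`. -/

namespace Pool.Agent.Results.MP_7fc841_nt.Full

open Finset

/-- The rising factorial `(a)_k = a (a + 1) ⋯ (a + k - 1)` of a rational number. -/
def rf (a : ℚ) (k : ℕ) : ℚ := ∏ i ∈ range k, (a + i)

/-- `S_r(p) = ∑_{0 ≤ k ≤ N} (2 N k - 1) ((-1/N)_k / k!) ^ (2 N)` with `N = p ^ r - 1`. -/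
def S (r p : ℕ) : ℚ := ∑ k ∈ range ((p ^ r - 1) + 1),
  (2 * ((p ^ r - 1 : ℕ) : ℚ) * k - 1) *
    (rf (-1 / ((p ^ r - 1 : ℕ) : ℚ)) k / (k.factorial : ℚ)) ^ (2 * (p ^ r - 1))

theorem rf_eq {p r : ℕ} (hN : p ^ r - 1 ≠ 0) (k : ℕ) :
    (rf (-1 / ((p ^ r - 1 : ℕ) : ℚ)) k / (k.factorial : ℚ)) ^ (2 * (p ^ r - 1)) =
      Q278.Seven.E (p ^ r) (p ^ r - 1) k := by
  have hM : ((p ^ r : ℕ) : ℚ) = ((p ^ r - 1 : ℕ) : ℚ) + 1 := by
    have : p ^ r = (p ^ r - 1) + 1 := by omega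
    exact_mod_cast this
  have hN0 : ((p ^ r - 1 : ℕ) : ℚ) ≠ 0 := by exact_mod_cast hN
  unfold Q278.Seven.E
  rw [prod_pow]
  congr 1
  induction k with
  | zero => simp [rf]
  | succ k ih =>
    rw [prod_range_succ, ← ih, Nat.factorial_succ]
    have hk : ((k.factorial : ℕ) : ℚ) ≠ 0 := by positivity
    have hk1 : (k : ℚ) + 1 ≠ 0 := by positivity
    have e1 : rf (-1 / ((p ^ r - 1 : ℕ) : ℚ)) (k + 1) =
        rf (-1 / ((p ^ r - 1 : ℕ) : ℚ)) k * (-1 / ((p ^ r - 1 : ℕ) : ℚ) + k) := by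
      unfold rf; rw [prod_range_succ]
    rw [e1]
    unfold Q278.Seven.s
    rw [hM]
    push_cast
    generalize ((p ^ r - 1 : ℕ) : ℚ) = N at *
    generalize rf (-1 / N) k = P at *
    field_simp
    ring

theorem result : ∀ p : ℕ, p.Prime → 3 < p → ∀ r : ℕ, 1 ≤ r →
    ¬ p ∣ (S r p / (p : ℚ) ^ (2 * r + 3)).den := by
  intro p hp hp3 r hr
  have : Fact p.Prime := ⟨hp⟩
  have hp5 : 5 ≤ p := by
    rcases (show p = 4 ∨ 5 ≤ p by omega) with h | h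
    · subst h; norm_num at hp
    · exact h
  have hN : p ^ r - 1 ≠ 0 := by
    intro h
    have h1 := Q278.Seven.not_dvd_pred (p := p) hr
    rw [h] at h1
    exact h1 (dvd_zero _)
  have h1 := Q278.Seven.final (p := p) hp5 hr
  have h2 : S r p = ∑ j ∈ range (p ^ r), (2 * ((p ^ r - 1 : ℕ) : ℚ) * j - 1) *
      Q278.Seven.E (p ^ r) (p ^ r - 1) j := by
    unfold S
    rw [show p ^ r - 1 + 1 = p ^ r by omega]
    exact sum_congr rfl (fun j _ => by rw [rf_eq hN])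
  rw [← h2] at h1
  obtain ⟨y, hy, he⟩ := h1
  have hp0 : (p : ℚ) ≠ 0 := by exact_mod_cast hp.ne_zero
  rw [he, mul_comm, mul_div_assoc, div_self (pow_ne_zero _ hp0), mul_one]
  exact hy

end Pool.Agent.Results.MP_7fc841_nt.Full
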